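import Pool.Agent.H659R3.MorseLim.Example

/-! MP_1d7d98_al, Q1, in the negative: there are a finitely generated group `G` and a finitely
generated almost malnormal subgroup `H` with nonempty Morse boundary, such that the limit set of
`H` in the Morse boundary of `G` is the Morse boundary of `H`, and `H` is not hyperbolically
embedded in `G`. Here `G = K * K` and `H = P * P`, where `K = ℤ[1/6] ⋊ ℤ²` (the maps
`t ↦ 2ˣ 3ʸ t + c`) and `P = ℤ²`. -/

set_option autoImplicit false

namespace Pool.Agent.Results.MP_1d7d98_al.FreeProductRetract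

open Pool.Agent.H659R3.MorseLim

theorem result :
    ∃ (G : Type) (_ : Group G) (H : Subgroup G) (A : FinGen G) (B : FinGen H),
      AlmostMalnormal H ∧ Nonempty (MorseBoundary B) ∧ LimitSetIsMorseBoundary A H B ∧
        ¬ HyperbolicallyEmbedded H := by
  have D := Aff.dataKK
  exact ⟨FP Aff.KK, inferInstance, D.H, D.A, D.B, D.almostMalnormal, ⟨D.morseRay.cls⟩,
    D.retractHyp.limitSet_isMorseBoundary, D.not_he⟩

end Pool.Agent.Results.MP_1d7d98_al.FreeProductRetract
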